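import Pool.Agent.Helper793.Unitary.Final

set_option autoImplicit false

namespace Pool.Agent.Results.MP_290fce_nt.ManyPrimes

/-- `σ* n`: the product of `1 + p ^ a` over the prime powers `p ^ a` exactly dividing `n`. -/
def sstar (n : ℕ) : ℕ := ∏ p ∈ n.primeFactors, (1 + p ^ (n.factorization p))

/-- Necessary conditions for a relatively prime unitary amicable pair `(m, n)`. -/
theorem result :
    ∀ m n : ℕ, 0 < m → 0 < n → m ≠ n → Nat.Coprime m n → sstar m = m + n → sstar n = m + n →
      Odd m ∧ Odd n ∧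
      (∀ q : ℕ, q.Prime → q ∣ m * n → ∀ p ∈ (m * n).primeFactors,
        ¬ q ∣ 1 + p ^ ((m * n).factorization p)) ∧
      246 ≤ (m * n).primeFactors.card ∧
      10 ^ 662 ≤ m * n := by
  intro m n hm hn hne hc h1 h2
  obtain ⟨a, b, c, d⟩ := Pool.Helper793.Unitary.main hm hn hne hc h1 h2
  exact ⟨a, b, fun q hq hqd p hp =>
    Pool.Helper793.Unitary.no_minus_one hc h1 h2 q hq hqd p hp, c, d⟩

end Pool.Agent.Results.MP_290fce_nt.ManyPrimes
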